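import Mathlib

/-!
Definitions for problem MP_e9218d_nt (difference-condition partition identities for the
residues `M - 2^(j-1)`).
-/

namespace Pool.Agent.MPe9218d

/-- `l` is a partition of `n`: a weakly decreasing list of positive integers with sum `n`. -/
def IsPartition (n : ℕ) (l : List ℕ) : Prop :=
  l.Pairwise (· ≥ ·) ∧ (∀ e ∈ l, 1 ≤ e) ∧ l.sum = n

/-- Partitions of `n` into distinct parts, each congruent to some `a i`, `1 ≤ i ≤ s`, mod `M`. -/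
def ASet (a : ℕ → ℕ) (s M n : ℕ) : Set (List ℕ) :=
  {l | IsPartition n l ∧ l.Nodup ∧ ∀ e ∈ l, ∃ i, 1 ≤ i ∧ i ≤ s ∧ e ≡ a i [MOD M]}

/-- `A(a 1, ..., a s; M; n)`. -/
noncomputable def A (a : ℕ → ℕ) (s M n : ℕ) : ℕ := (ASet a s M n).ncard

/-- The difference condition between a part `e` and the next part `e'`:
`e - e' ≥ b j` for the `j` in `{1, ..., M}` with `e ≡ j` mod `M`. -/
def Step (b : ℕ → ℕ) (M e e' : ℕ) : Prop :=
  ∀ j, 1 ≤ j → j ≤ M → e ≡ j [MOD M] → e' + b j ≤ e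

/-- Partitions of `n` with no part in `C` whose consecutive parts satisfy `Step`. -/
def BSet (b : ℕ → ℕ) (M : ℕ) (C : Set ℕ) (n : ℕ) : Set (List ℕ) :=
  {l | IsPartition n l ∧ (∀ e ∈ l, e ∉ C) ∧ l.IsChain (Step b M)}

/-- `B_0(b 1, ..., b M; M; C; n)`. -/
noncomputable def B0 (b : ℕ → ℕ) (M : ℕ) (C : Set ℕ) (n : ℕ) : ℕ := (BSet b M C n).ncard

/-- The residues `a_i = M - 2^(i-1)`. -/
def a (M i : ℕ) : ℕ := M - 2 ^ (i - 1)

/-- `C = {m ≥ 1 : A(m) = 0}`. -/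
def C (M s : ℕ) : Set ℕ := {m | 1 ≤ m ∧ A (a M) s M m = 0}

/-- The identity of the problem for the triple `(M, s, b)`. -/
def Identity (M s : ℕ) (b : ℕ → ℕ) : Prop :=
  ∀ n, 1 ≤ n → A (a M) s M n = B0 b M (C M s) n

end Pool.Agent.MPe9218d
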